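import Mathlib
import Pool.Agent.X215.RE.A

/-!
# `cov(N) = 𝔠` separates the notions of `n`-entangledness

If the real line is not a union of fewer than `𝔠` Lebesgue null sets, then for every `n > 1` there is a
set of reals which is `(𝔠, n)`-entangled and not `(𝔠, n + 1)`-entangled. In the random real model this
hypothesis holds while `cov(B) < 𝔠`.

The set consists of the entries of `(x_t(0), …, x_t(n-1), -∑ x_t(i))` for a sequence `x : 𝔠 → ℝ^n` such
that for every `k` and every null set `N` of `k`-tuples of elements of `ℝ^n` all increasing `k`-tuples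
of indices beyond some `γ` give a tuple not in `N`. If a family of `𝔠` pairwise disjoint `n`-tuples does
not realize a type, then after reflecting some coordinates it is an antichain, hence a null set, and its
preimages under finitely many surjective linear maps are null.
-/

set_option autoImplicit false

namespace Pool.Agent.Results.MP_360872_lc.RandomEntangled

open Set MeasureTheory Pool.Agent.X215.RE
open scoped Cardinal

/-- `cov(N)`: the least cardinality of a family of Lebesgue null sets of reals with union `ℝ`. -/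
noncomputable def covN : Cardinal.{0} :=
  sInf {κ | ∃ F : Set (Set ℝ), #F = κ ∧ (∀ A ∈ F, volume A = 0) ∧ ⋃₀ F = univ}

/-- `a` and `b` have the type `t`: `t i = 0` (here `false`) iff `a i < b i`. -/
def HasType {n : ℕ} (a b : Fin n → ℝ) (t : Fin n → Bool) : Prop :=
  ∀ i, t i = false ↔ a i < b i

/-- `E` is `(κ, n)`-entangled: for every family `F` of `κ` many pairwise disjoint 1-1 `n`-tuples of
elements of `E` and every `t` there are (different, hence disjoint) `a, b ∈ F` of type `t`. -/
def Entangled (κ : Cardinal.{0}) (n : ℕ) (E : Set ℝ) : Prop :=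
  ∀ F : Set (Fin n → ℝ), #F = κ → (∀ a ∈ F, Function.Injective a ∧ ∀ i, a i ∈ E) →
    (∀ a ∈ F, ∀ b ∈ F, a ≠ b → ∀ i j, a i ≠ b j) →
    ∀ t : Fin n → Bool, ∃ a ∈ F, ∃ b ∈ F, a ≠ b ∧ HasType a b t

theorem cov_real (h : covN = 𝔠) : Cov ℝ := by
  intro I N hI h0
  by_contra hcon
  push Not at hcon
  have h1 : covN ≤ #(range N) := by
    refine csInf_le' ⟨range N, rfl, ?_, ?_⟩
    · rintro A ⟨i, rfl⟩
      exact h0 i
    · ext z
      simp only [mem_sUnion, mem_range, exists_exists_eq_and, mem_univ, iff_true]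
      exact hcon z
  have h2 : #(range N) ≤ #I := Cardinal.mk_range_le
  rw [h] at h1
  exact absurd (h1.trans h2) (not_le.2 hI)

/-! ### Linear algebra -/

/-- the extension of `z ∈ ℝ^n` by `-∑ z i` -/
noncomputable def ext (n : ℕ) : (Fin n → ℝ) →ₗ[ℝ] (Fin (n + 1) → ℝ) :=
  LinearMap.pi fun p => Fin.lastCases (motive := fun _ => (Fin n → ℝ) →ₗ[ℝ] ℝ)
    (-∑ i, LinearMap.proj i) (fun i => LinearMap.proj i) p

theorem ext_last (n : ℕ) (z : Fin n → ℝ) : ext n z (Fin.last n) = -∑ i, z i := by
  simp [ext]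

theorem ext_castSucc (n : ℕ) (z : Fin n → ℝ) (i : Fin n) : ext n z i.castSucc = z i := by
  simp [ext]

theorem ext_sum (n : ℕ) (z : Fin n → ℝ) : ∑ p, ext n z p = 0 := by
  rw [Fin.sum_univ_castSucc, ext_last]
  simp [ext_castSucc]

theorem ext_of (n : ℕ) (w : Fin (n + 1) → ℝ) (hw : ∑ p, w p = 0) :
    ext n (fun i => w i.castSucc) = w := by
  funext p
  refine Fin.lastCases ?_ (fun i => ?_) p
  · rw [ext_last]
    rw [Fin.sum_univ_castSucc] at hw
    linarith
  · rw [ext_castSucc]

/-- prescribed values away from `m` -/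
theorem exists_ext (n : ℕ) (r : Fin (n + 1) → ℝ) (m : Fin (n + 1)) :
    ∃ z : Fin n → ℝ, ∀ p, p ≠ m → ext n z p = r p := by
  classical
  let w : Fin (n + 1) → ℝ := Function.update r m (-∑ p ∈ Finset.univ.erase m, r p)
  have hw : ∑ p, w p = 0 := by
    rw [← Finset.add_sum_erase _ _ (Finset.mem_univ m)]
    have h1 : ∑ p ∈ Finset.univ.erase m, w p = ∑ p ∈ Finset.univ.erase m, r p := by
      refine Finset.sum_congr rfl fun p hp => ?_
      simp only [w]
      rw [Function.update_of_ne (Finset.ne_of_mem_erase hp)]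
    rw [h1]
    simp [w]
  refine ⟨fun i => w i.castSucc, fun p hp => ?_⟩
  rw [ext_of n w hw]
  simp only [w]
  rw [Function.update_of_ne hp]

/-- the linear map with the coordinates `σ j * ext (X (q j)) (p j)` -/
noncomputable def L (n k : ℕ) (σ : Fin n → ℝ) (q : Fin n → Fin k) (p : Fin n → Fin (n + 1)) :
    (Fin k → Fin n → ℝ) →ₗ[ℝ] (Fin n → ℝ) :=
  LinearMap.pi fun j => σ j • ((LinearMap.proj (p j)).comp ((ext n).comp (LinearMap.proj (q j))))

theorem L_apply (n k : ℕ) (σ : Fin n → ℝ) (q : Fin n → Fin k) (p : Fin n → Fin (n + 1))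
    (X : Fin k → Fin n → ℝ) (j : Fin n) : L n k σ q p X j = σ j * ext n (X (q j)) (p j) := by
  simp [L]

theorem L_surj (n k : ℕ) (σ : Fin n → ℝ) (hσ : ∀ i, σ i ≠ 0) (q : Fin n → Fin k)
    (p : Fin n → Fin (n + 1)) (h : Function.Injective fun j => (q j, p j)) :
    Function.Surjective (L n k σ q p) := by
  classical
  intro r
  have h1 : ∀ b : Fin k, ∃ z : Fin n → ℝ, ∀ j, q j = b → ext n z (p j) = (σ j)⁻¹ * r j := by
    intro b
    obtain ⟨m, hm⟩ : ∃ m : Fin (n + 1), m ∉ Finset.univ.image p := by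
      by_contra hcon
      push Not at hcon
      have h2 : (Finset.univ : Finset (Fin (n + 1))) ⊆ Finset.univ.image p := fun m _ => hcon m
      have h3 := (Finset.card_le_card h2).trans Finset.card_image_le
      simp at h3
    obtain ⟨z, hz⟩ := exists_ext n (fun u => if hu : ∃ j, q j = b ∧ p j = u then
      (σ hu.choose)⁻¹ * r hu.choose else 0) m
    refine ⟨z, fun j hj => ?_⟩
    have h2 : p j ≠ m := by
      rintro rfl
      exact hm (Finset.mem_image_of_mem _ (Finset.mem_univ j))
    have h3 : ∃ j', q j' = b ∧ p j' = p j := ⟨j, hj, rfl⟩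
    rw [hz _ h2, dif_pos h3]
    have h4 : h3.choose = j := by
      apply h
      have h5 := h3.choose_spec
      simp only [Prod.mk.injEq]
      exact ⟨h5.1.trans hj.symm, h5.2⟩
    rw [h4]
  choose z hz using h1
  refine ⟨z, ?_⟩
  funext j
  rw [L_apply, hz (q j) j rfl, ← mul_assoc, mul_inv_cancel₀ (hσ j), one_mul]

theorem preimage_null {k n m : ℕ} (f : (Fin k → Fin n → ℝ) →ₗ[ℝ] (Fin m → ℝ))
    (hf : Function.Surjective f) (N : Set (Fin m → ℝ)) (hN : volume N = 0) :
    volume (f ⁻¹' N) = 0 := by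
  have h1 : volume (toMeasurable volume N) = 0 := by
    rw [measure_toMeasurable]
    exact hN
  have h2 := (ae_comp_linearMap_mem_iff f (volume : Measure (Fin k → Fin n → ℝ))
    (volume : Measure (Fin m → ℝ)) hf
    (measurableSet_toMeasurable (volume : Measure (Fin m → ℝ)) N).compl).2
    (measure_eq_zero_iff_ae_notMem.1 h1)
  refine measure_mono_null ?_ (measure_eq_zero_iff_ae_notMem.2 h2)
  exact preimage_mono (subset_toMeasurable _ _)

theorem kernel_null {k n : ℕ} (f : (Fin k → Fin n → ℝ) →ₗ[ℝ] ℝ) (X : Fin k → Fin n → ℝ)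
    (hf : f X ≠ 0) : volume {Y | f Y = 0} = 0 := by
  have h1 := Measure.addHaar_submodule (volume : Measure (Fin k → Fin n → ℝ)) (LinearMap.ker f) (by
    intro h
    apply hf
    have : X ∈ LinearMap.ker f := by rw [h]; trivial
    exact this)
  exact h1

/-! ### Entangled sets -/

/-- the sign of a type -/
def sg {n : ℕ} (t : Fin n → Bool) (i : Fin n) : ℝ := if t i = false then 1 else -1

theorem sg_ne {n : ℕ} (t : Fin n → Bool) (i : Fin n) : sg t i ≠ 0 := by
  unfold sg
  split_ifs <;> norm_num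

/-- A family of pairwise disjoint tuples which does not realize the type `t` is null after
reflection. -/
theorem null_of_not_type {n : ℕ} (hn : 0 < n) (F : Set (Fin n → ℝ))
    (hF : ∀ a ∈ F, ∀ b ∈ F, a ≠ b → ∀ i j, a i ≠ b j) (t : Fin n → Bool)
    (ht : ∀ a ∈ F, ∀ b ∈ F, a ≠ b → ¬ HasType a b t) :
    volume ((fun (a : Fin n → ℝ) i => sg t i * a i) '' F) = 0 := by
  have : Nonempty (Fin n) := ⟨⟨0, hn⟩⟩
  refine IsAntichain.volume_eq_zero ?_
  rintro _ ⟨a, ha, rfl⟩ _ ⟨b, hb, rfl⟩ hab hle
  have hne : a ≠ b := by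
    rintro rfl
    exact hab rfl
  refine ht a ha b hb hne fun i => ?_
  have h1 := hle i
  have h2 := hF a ha b hb hne i i
  simp only [sg] at h1
  by_cases h3 : t i = false
  · rw [if_pos h3, one_mul, one_mul] at h1
    simp only [h3, true_iff]
    exact lt_of_le_of_ne h1 h2
  · rw [if_neg h3] at h1
    refine ⟨fun h => absurd h h3, fun h => ?_⟩
    exfalso
    linarith

section main

variable {n : ℕ} {T : Type} [LinearOrder T]

/-- the set of the entries of the tuples `ext (x t)` -/
def E (x : T → Fin n → ℝ) : Set ℝ := {r | ∃ t p, r = ext n (x t) p}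

theorem entangled (hn : 0 < n) [Nonempty T] (hlt : ∀ t : T, #(Iic t) < 𝔠)
    (x : T → Fin n → ℝ)
    (hx : ∀ (k : ℕ) (N : Set (Fin k → Fin n → ℝ)), volume N = 0 →
      ∃ γ : T, ∀ s : Fin k → T, StrictMono s → (∀ i, γ < s i) → (fun i => x (s i)) ∉ N) :
    Entangled 𝔠 n (E x) := by
  classical
  intro F hcard hF hdisj t
  by_contra hcon
  push Not at hcon
  have h0 := null_of_not_type hn F hdisj t hcon
  have h1 : ∀ c : (Σ k : Fin (n + 1), (Fin n → Fin k) × (Fin n → Fin (n + 1))), ∃ γ : T,
      (Function.Injective fun j => (c.2.1 j, c.2.2 j)) →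
      ∀ s : Fin (c.1 : ℕ) → T, StrictMono s → (∀ i, γ < s i) →
        L n c.1 (sg t) c.2.1 c.2.2 (fun i => x (s i)) ∉
          ((fun (a : Fin n → ℝ) i => sg t i * a i) '' F) := by
    rintro ⟨k, q, p⟩
    by_cases hinj : Function.Injective fun j => (q j, p j)
    · obtain ⟨γ, hγ⟩ := hx k _ (preimage_null (L n k (sg t) q p)
        (L_surj n k (sg t) (sg_ne t) q p hinj) _ h0)
      exact ⟨γ, fun _ => hγ⟩
    · exact ⟨Classical.arbitrary T, fun h => absurd h hinj⟩
  choose g hg using h1
  obtain ⟨γ, hγ⟩ := Finite.exists_le g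
  have h2 : ∀ a : F, ∃ (v : Fin n → T) (p : Fin n → Fin (n + 1)),
      ∀ j, (a : Fin n → ℝ) j = ext n (x (v j)) (p j) := by
    intro a
    have := (hF a a.2).2
    choose v p h using this
    exact ⟨v, p, h⟩
  choose v p hvp using h2
  have h3 : ∃ a : F, ∀ j, γ < v a j := by
    by_contra hc
    push Not at hc
    choose j hj using hc
    have h4 : Function.Injective fun a : F => ((⟨v a (j a), hj a⟩ : Iic γ), p a (j a)) := by
      intro a b hab
      have hab1 : v a (j a) = v b (j b) := congrArg (fun c => (c.1 : T)) hab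
      have hab2 : p a (j a) = p b (j b) := congrArg (fun c => c.2) hab
      by_contra hne
      refine hdisj a a.2 b b.2 (fun h => hne (Subtype.ext h)) (j a) (j b) ?_
      rw [hvp a, hvp b, hab1, hab2]
    have h5 := Cardinal.mk_le_of_injective h4
    rw [hcard, Cardinal.mk_prod, Cardinal.lift_id, Cardinal.lift_id] at h5
    refine absurd h5 (not_le.2 (Cardinal.mul_lt_of_lt Cardinal.aleph0_le_continuum (hlt γ) ?_))
    exact (Cardinal.lt_aleph0_of_finite _).trans Cardinal.aleph0_lt_continuum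
  obtain ⟨a, ha⟩ := h3
  let S : Finset T := Finset.univ.image (v a)
  have hS : S.card < n + 1 := by
    have : S.card ≤ (Finset.univ : Finset (Fin n)).card := Finset.card_image_le
    rw [Finset.card_fin] at this
    omega
  let s : Fin S.card → T := S.orderEmbOfFin rfl
  have hs : StrictMono s := (S.orderEmbOfFin rfl).strictMono
  have hrange : range s = S := Finset.range_orderEmbOfFin S rfl
  have h4 : ∀ j, ∃ i, s i = v a j := by
    intro j
    have : v a j ∈ range s := by
      rw [hrange]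
      exact Finset.mem_coe.2 (Finset.mem_image_of_mem _ (Finset.mem_univ j))
    exact this
  choose q hq using h4
  have hinj : Function.Injective fun j => (q j, p a j) := by
    intro i j hij
    simp only [Prod.mk.injEq] at hij
    apply (hF a a.2).1
    rw [hvp a, hvp a, ← hq i, ← hq j, hij.1, hij.2]
  refine hg ⟨⟨S.card, hS⟩, q, p a⟩ hinj s hs ?_ ?_
  · intro i
    refine lt_of_le_of_lt (hγ _) ?_
    have h5 : s i ∈ (S : Set T) := by
      rw [← hrange]
      exact mem_range_self i
    obtain ⟨j, -, hj⟩ := Finset.mem_image.1 (Finset.mem_coe.1 h5)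
    rw [← hj]
    exact ha j
  · refine ⟨a, a.2, ?_⟩
    funext j
    rw [L_apply, hq j, ← hvp a j]

theorem not_entangled (hn : 0 < n) (hT : #T = 𝔠) (hlt : ∀ t : T, #(Iic t) < 𝔠)
    (x : T → Fin n → ℝ)
    (hx : ∀ (k : ℕ) (N : Set (Fin k → Fin n → ℝ)), volume N = 0 →
      ∃ γ : T, ∀ s : Fin k → T, StrictMono s → (∀ i, γ < s i) → (fun i => x (s i)) ∉ N) :
    ¬ Entangled 𝔠 (n + 1) (E x) := by
  classical
  intro hE
  -- the entries of a tuple are different
  have h1 : volume (⋃ p : Fin (n + 1), ⋃ p' : Fin (n + 1), ⋃ _ : p ≠ p',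
      {X : Fin 1 → Fin n → ℝ | ext n (X 0) p - ext n (X 0) p' = 0}) = 0 := by
    rw [measure_iUnion_null_iff]
    intro p
    rw [measure_iUnion_null_iff]
    intro p'
    rw [measure_iUnion_null_iff]
    intro hp
    let w : Fin (n + 1) → ℝ := Pi.single p 1 - Pi.single p' 1
    have hw : ∑ u, w u = 0 := by
      simp [w, Finset.sum_sub_distrib, Finset.sum_pi_single']
    have hw1 : w p = 1 := by
      simp [w, Pi.single_eq_of_ne hp]
    have hw2 : w p' = -1 := by
      simp [w, Pi.single_eq_of_ne hp.symm]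
    refine kernel_null ((LinearMap.proj p).comp ((ext n).comp (LinearMap.proj (0 : Fin 1))) -
      (LinearMap.proj p').comp ((ext n).comp (LinearMap.proj (0 : Fin 1))))
      (fun _ i => w i.castSucc) ?_
    show ext n (fun i => w i.castSucc) p - ext n (fun i => w i.castSucc) p' ≠ 0
    rw [ext_of n w hw, hw1, hw2]
    norm_num
  obtain ⟨γ1, hγ1⟩ := hx 1 _ h1
  have h1' : ∀ t, γ1 < t → Function.Injective (ext n (x t)) := by
    intro t ht p p' hpp
    by_contra hne
    refine hγ1 (fun _ => t) (Subsingleton.strictMono _) (fun _ => ht) ?_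
    simp only [mem_iUnion]
    exact ⟨p, p', hne, sub_eq_zero.2 hpp⟩
  -- the entries of different tuples are different
  have h2 : volume (⋃ p : Fin (n + 1), ⋃ p' : Fin (n + 1),
      {X : Fin 2 → Fin n → ℝ | ext n (X 1) p - ext n (X 0) p' = 0}) = 0 := by
    rw [measure_iUnion_null_iff]
    intro p
    rw [measure_iUnion_null_iff]
    intro p'
    obtain ⟨m, hm⟩ : ∃ m : Fin (n + 1), p ≠ m := by
      have : Nontrivial (Fin (n + 1)) := Fin.nontrivial_iff_two_le.2 (by omega)
      obtain ⟨m, hm⟩ := exists_ne p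
      exact ⟨m, hm.symm⟩
    obtain ⟨z, hz⟩ := exists_ext n (fun _ => 1) m
    refine kernel_null ((LinearMap.proj p).comp ((ext n).comp (LinearMap.proj (1 : Fin 2))) -
      (LinearMap.proj p').comp ((ext n).comp (LinearMap.proj (0 : Fin 2)))) ![0, z] ?_
    show ext n z p - ext n 0 p' ≠ 0
    rw [hz p hm, map_zero]
    simp
  obtain ⟨γ2, hγ2⟩ := hx 2 _ h2
  have h2' : ∀ t t', γ2 < t → t < t' → ∀ p p', ext n (x t') p ≠ ext n (x t) p' := by
    intro t t' ht htt p p' hpp
    refine hγ2 ![t, t'] ?_ ?_ ?_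
    · intro i j hij
      fin_cases i <;> fin_cases j <;> first | exact htt | exact absurd hij (by decide)
    · intro i
      fin_cases i
      · exact ht
      · exact ht.trans htt
    · simp only [mem_iUnion]
      exact ⟨p, p', sub_eq_zero.2 hpp⟩
  let γ := max γ1 γ2
  have h3 : ∀ t t', γ < t → γ < t' → t ≠ t' → ∀ p p', ext n (x t) p ≠ ext n (x t') p' := by
    intro t t' ht ht' hne p p' hpp
    rcases lt_or_gt_of_ne hne with h | h
    · exact h2' t t' (lt_of_le_of_lt (le_max_right _ _) ht) h p' p hpp.symm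
    · exact h2' t' t (lt_of_le_of_lt (le_max_right _ _) ht') h p p' hpp
  have hinf : Infinite T := by
    rw [Cardinal.infinite_iff, hT]
    exact Cardinal.aleph0_le_continuum
  have h4 : #(Ioi γ) = 𝔠 := by
    have h5 := Cardinal.mk_compl_of_infinite (Iic γ) (by rw [hT]; exact hlt γ)
    rw [compl_Iic, hT] at h5
    exact h5
  have h5 : #((fun t => ext n (x t)) '' Ioi γ : Set (Fin (n + 1) → ℝ)) = 𝔠 := by
    rw [Cardinal.mk_image_eq_of_injOn, h4]
    intro t ht t' ht' htt
    by_contra hne
    exact h3 t t' ht ht' hne 0 0 (congrFun htt 0)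
  obtain ⟨_, ⟨t, ht, rfl⟩, _, ⟨t', ht', rfl⟩, hne, htype⟩ := hE _ h5 (by
      rintro _ ⟨t, ht, rfl⟩
      exact ⟨h1' t (lt_of_le_of_lt (le_max_left _ _) ht), fun p => ⟨t, p, rfl⟩⟩) (by
      rintro _ ⟨t, ht, rfl⟩ _ ⟨t', ht', rfl⟩ hne i j
      refine h3 t t' ht ht' ?_ i j
      rintro rfl
      exact hne rfl) (fun _ => false)
  have h6 : ∑ p, ext n (x t) p < ∑ p, ext n (x t') p :=
    Finset.sum_lt_sum_of_nonempty ⟨0, Finset.mem_univ _⟩ fun p _ => (htype p).1 rfl
  rw [ext_sum, ext_sum] at h6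
  exact lt_irrefl _ h6

end main

/-- If the real line is not a union of fewer than `𝔠` null sets, then for every `n > 1` there is a set
of reals which is `(𝔠, n)`-entangled but not `(𝔠, n + 1)`-entangled. -/
theorem result (h : covN = 𝔠) (n : ℕ) (hn : 1 < n) :
    ∃ A : Set ℝ, Entangled 𝔠 n A ∧ ¬ Entangled 𝔠 (n + 1) A := by
  let T : Type := (Cardinal.continuum.{0}).ord.ToType
  have hT : #T = 𝔠 := Cardinal.mk_ord_toType _
  have hne : Nonempty T := by
    rw [← Cardinal.mk_ne_zero_iff, hT]
    exact Cardinal.continuum_ne_zero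
  have hlt : ∀ t : T, #(Iio t) < 𝔠 := fun t => Cardinal.mk_Iio_toType_ord_lt t
  have hle : ∀ t : T, #(Iic t) < 𝔠 := by
    intro t
    have h1 : Iic t = insert t (Iio t) := by
      ext s
      simp only [mem_Iic, mem_insert_iff, mem_Iio]
      exact le_iff_eq_or_lt
    rw [h1]
    refine lt_of_le_of_lt Cardinal.mk_insert_le ?_
    exact Cardinal.add_lt_of_lt Cardinal.aleph0_le_continuum (hlt t)
      (Cardinal.one_lt_aleph0.trans Cardinal.aleph0_lt_continuum)
  obtain ⟨x, hx⟩ := exists_generic (Fin n → ℝ) (cov_pi (cov_real h) n) T hT hlt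
  exact ⟨E x, entangled (by omega) hle x hx, not_entangled (by omega) hT hle x hx⟩

end Pool.Agent.Results.MP_360872_lc.RandomEntangled
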